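import Mathlib
import Pool.Agent.K3h87.PC.P4core

/-!
# Brick G10 of helper54 (project PM): elementary digit lemmas
-/

set_option autoImplicit false

namespace Pool.Agent.K3h87.PM

open Finset
open Pool.Agent.K3h87.PC (sum_lt_pow sum_digits_mod digits_sym)

lemma split_sum (b : ℕ) (e : ℕ → ℕ) (N k : ℕ) (hk : k ≤ N) :
    ∑ i ∈ range N, e i * b ^ i =
      ∑ i ∈ range k, e i * b ^ i + b ^ k * ∑ i ∈ range (N - k), e (k + i) * b ^ i := by
  conv_lhs => rw [show N = k + (N - k) by omega]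
  rw [sum_range_add, mul_sum]
  congr 1
  refine sum_congr rfl fun i _ => ?_
  rw [pow_add]
  ring

lemma div_sum {b : ℕ} (hb : 2 ≤ b) (e : ℕ → ℕ) (N k : ℕ) (hk : k ≤ N) (he : ∀ i < N, e i < b) :
    (∑ i ∈ range N, e i * b ^ i) / b ^ k = ∑ i ∈ range (N - k), e (k + i) * b ^ i := by
  rw [split_sum b e N k hk, Nat.add_mul_div_left _ _ (pow_pos (by omega) _),
    Nat.div_eq_of_lt (sum_lt_pow e k fun i hi => he i (by omega)), zero_add]

lemma mod_sum {b : ℕ} (e : ℕ → ℕ) (N l : ℕ) (hl : l ≤ N) (he : ∀ i < N, e i < b) :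
    (∑ i ∈ range N, e i * b ^ i) % b ^ l = ∑ i ∈ range l, e i * b ^ i := by
  rw [split_sum b e N l hl, Nat.add_mul_mod_self_left,
    Nat.mod_eq_of_lt (sum_lt_pow e l fun i hi => he i (by omega))]

lemma digit_sum {b : ℕ} (hb : 2 ≤ b) (e : ℕ → ℕ) (N k : ℕ) (hk : k < N) (he : ∀ i < N, e i < b) :
    (∑ i ∈ range N, e i * b ^ i) / b ^ k % b = e k := by
  have h1 := mod_sum (b := b) (fun i => e (k + i)) (N - k) 1 (by omega) fun i hi => he _ (by omega)
  rw [pow_one] at h1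
  rw [div_sum hb e N k hk.le he, h1]
  simp

/-- the number with the digits `D (|i - K|)` -/
def num (b K : ℕ) (D : ℕ → ℕ) : ℕ := ∑ i ∈ range (2 * K + 1), D (Nat.dist i K) * b ^ i

lemma num_eq (b K : ℕ) (D : ℕ → ℕ) :
    num b K D = D 0 * b ^ K + ∑ j ∈ range K, D (j + 1) * (b ^ (K + (j + 1)) + b ^ (K - (j + 1))) := by
  unfold num
  rw [show 2 * K + 1 = K + 1 + K by ring, sum_range_add, sum_range_succ, ← sum_range_reflect]
  have h1 : ∑ j ∈ range K, D (Nat.dist (K - 1 - j) K) * b ^ (K - 1 - j) =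
      ∑ j ∈ range K, D (j + 1) * b ^ (K - (j + 1)) := by
    refine sum_congr rfl fun j hj => ?_
    rw [mem_range] at hj
    have e1 : Nat.dist (K - 1 - j) K = j + 1 := by unfold Nat.dist; omega
    rw [e1, show K - 1 - j = K - (j + 1) by omega]
  have h2 : ∑ j ∈ range K, D (Nat.dist (K + 1 + j) K) * b ^ (K + 1 + j) =
      ∑ j ∈ range K, D (j + 1) * b ^ (K + (j + 1)) := by
    refine sum_congr rfl fun j _ => ?_
    have e1 : Nat.dist (K + 1 + j) K = j + 1 := by unfold Nat.dist; omega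
    rw [e1, show K + 1 + j = K + (j + 1) by ring]
  have h3 : Nat.dist K K = 0 := Nat.dist_self K
  rw [h1, h2, h3]
  simp only [mul_add, sum_add_distrib]
  ring

lemma num_lt {b : ℕ} (K : ℕ) (D : ℕ → ℕ) (hD : ∀ j ≤ K, D j < b) : num b K D < b ^ (2 * K + 1) := by
  unfold num
  refine sum_lt_pow (fun i => D (Nat.dist i K)) _ fun i hi => hD _ ?_
  unfold Nat.dist
  omega

lemma num_sym {b : ℕ} (hb : 2 ≤ b) (K : ℕ) (D : ℕ → ℕ) (hD : ∀ j ≤ K, D j < b) (hK : D K ≠ 0) :
    (Nat.digits b (num b K D)).reverse = Nat.digits b (num b K D) := by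
  unfold num
  refine digits_sym hb (fun i => D (Nat.dist i K)) _ (by omega) ?_ ?_ ?_
  · intro i hi
    apply hD
    unfold Nat.dist
    omega
  · have e1 : Nat.dist (2 * K + 1 - 1) K = K := by unfold Nat.dist; omega
    simp only [e1]
    exact hK
  · intro i hi
    have e1 : Nat.dist (2 * K + 1 - 1 - i) K = Nat.dist i K := by unfold Nat.dist; omega
    simp only [e1]

lemma num_mid {b : ℕ} (hb : 2 ≤ b) (K g : ℕ) (hg : g ≤ K) (D : ℕ → ℕ) (hD : ∀ j ≤ K, D j < b) :
    num b K D / b ^ K % b ^ (g + 1) = ∑ i ∈ range (g + 1), D i * b ^ i := by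
  unfold num
  have he : ∀ i < 2 * K + 1, D (Nat.dist i K) < b := by
    intro i hi
    apply hD
    unfold Nat.dist
    omega
  rw [div_sum hb (fun i => D (Nat.dist i K)) _ K (by omega) he,
    mod_sum (fun i => D (Nat.dist (K + i) K)) _ (g + 1) (by omega) fun i hi => he _ (by omega)]
  refine sum_congr rfl fun i _ => ?_
  have e1 : Nat.dist (K + i) K = i := by unfold Nat.dist; omega
  rw [e1]

lemma num_top {b : ℕ} (hb : 2 ≤ b) (K g : ℕ) (hg : g < K) (D : ℕ → ℕ) (hD : ∀ j ≤ K, D j < b) :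
    num b K D / b ^ (K + 1 + g) = ∑ i ∈ range (K - g), D (g + 1 + i) * b ^ i := by
  unfold num
  have he : ∀ i < 2 * K + 1, D (Nat.dist i K) < b := by
    intro i hi
    apply hD
    unfold Nat.dist
    omega
  rw [div_sum hb (fun i => D (Nat.dist i K)) _ (K + 1 + g) (by omega) he,
    show 2 * K + 1 - (K + 1 + g) = K - g by omega]
  refine sum_congr rfl fun i _ => ?_
  have e1 : Nat.dist (K + 1 + g + i) K = g + 1 + i := by unfold Nat.dist; omega
  simp only [e1]

lemma num_congr {b K : ℕ} {D D' : ℕ → ℕ} (h : ∀ j ≤ K, D j = D' j) : num b K D = num b K D' := by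
  unfold num
  refine sum_congr rfl fun i hi => ?_
  rw [mem_range] at hi
  rw [h]
  unfold Nat.dist
  omega

end Pool.Agent.K3h87.PM
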