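import Pool.Agent.K3h54.PM.Stm
import Pool.Agent.K3h87.PM.G10core

/-!
# Brick G10 of helper54 (project PM): the digits of `pvG + hy`
-/

set_option autoImplicit false

namespace Pool.Agent.K3h87.PM

open Finset
open Pool.Agent.K3h54.PM
open Pool.Agent.W89.PW (fr)
open Pool.Agent.K3h87.PC (sum_digits_mod)

/-- the digits, as a function of the distance to the middle -/
def DD (b s t g L : ℕ) (m : Fin L → Fin s × Fin t) (y : ℕ) : ℕ → ℕ
  | 0 => y % b
  | c + 1 => if h : c < L then (if g ≤ c then ((m ⟨c, h⟩).1 : ℕ) + ((m ⟨c, h⟩).2 : ℕ)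
      else y / b ^ (c + 1) % b) else 1

lemma DD_succ (b s t g L : ℕ) (m : Fin L → Fin s × Fin t) (y c : ℕ) : DD b s t g L m y (c + 1) =
    if h : c < L then (if g ≤ c then ((m ⟨c, h⟩).1 : ℕ) + ((m ⟨c, h⟩).2 : ℕ)
      else y / b ^ (c + 1) % b) else 1 := rfl

lemma DD_lt {b s t g L : ℕ} (hb : 2 ≤ b) (hst : s + t = b + 1) (m : Fin L → Fin s × Fin t) (y : ℕ)
    (j : ℕ) : DD b s t g L m y j < b := by
  cases j with
  | zero => exact Nat.mod_lt _ (by omega)
  | succ c =>
    rw [DD_succ]
    split_ifs with h h2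
    · have h3 := (m ⟨c, h⟩).1.isLt
      have h4 := (m ⟨c, h⟩).2.isLt
      omega
    · exact Nat.mod_lt _ (by omega)
    · omega

lemma DD_top {b s t g L : ℕ} (m : Fin L → Fin s × Fin t) (y : ℕ) : DD b s t g L m y (L + 1) = 1 := by
  rw [DD_succ]
  rw [dif_neg (by omega)]

lemma main_eq (b : ℕ) {s t g L : ℕ} (hg : g ≤ L) (m : Fin L → Fin s × Fin t) (y : ℕ) :
    pvG b s t g L m + hy b g L y = num b (L + 1) (DD b s t g L m y) := by
  rw [num_eq, sum_range_succ, DD_top]
  have h0 : DD b s t g L m y 0 = y % b := rfl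
  rw [h0]
  have h1 : ∑ j ∈ range L, DD b s t g L m y (j + 1) * (b ^ (L + 1 + (j + 1)) + b ^ (L + 1 - (j + 1))) =
      ∑ c ∈ (univ : Finset (Fin L)).filter (fun c : Fin L => g ≤ (c : ℕ)),
        (((m c).1 : ℕ) + ((m c).2 : ℕ)) * fr b L c +
      ∑ c ∈ range g, (y / b ^ (c + 1) % b) * fr b L c := by
    have h2 : ∑ j ∈ range L, DD b s t g L m y (j + 1) *
        (b ^ (L + 1 + (j + 1)) + b ^ (L + 1 - (j + 1))) =
        ∑ j ∈ (range L).filter (fun c => g ≤ c), DD b s t g L m y (j + 1) * fr b L j +
        ∑ j ∈ (range L).filter (fun c => ¬ g ≤ c), DD b s t g L m y (j + 1) * fr b L j := by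
      rw [sum_filter_add_sum_filter_not]
      refine sum_congr rfl fun j hj => ?_
      rw [mem_range] at hj
      unfold fr
      rw [show L + 1 + (j + 1) = L + j + 2 by ring, show L + 1 - (j + 1) = L - j by omega]
    rw [h2]
    congr 1
    · rw [sum_filter, sum_filter, ← Fin.sum_univ_eq_sum_range
        (fun j => if g ≤ j then DD b s t g L m y (j + 1) * fr b L j else 0) L]
      refine sum_congr rfl fun c _ => ?_
      by_cases hc : g ≤ (c : ℕ)
      · rw [if_pos hc, if_pos hc]
        rw [DD_succ]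
        rw [dif_pos c.isLt, if_pos hc]
      · rw [if_neg hc, if_neg hc]
    · have h3 : (range L).filter (fun c => ¬ g ≤ c) = range g := by
        ext c
        simp only [mem_filter, mem_range]
        omega
      rw [h3]
      refine sum_congr rfl fun c hc => ?_
      rw [mem_range] at hc
      rw [DD_succ]
      rw [dif_pos (by omega), if_neg (by omega)]
  rw [h1]
  unfold pvG hy
  rw [show L + 1 + (L + 1) = 2 * L + 2 by ring, Nat.sub_self, pow_zero]
  ring

lemma hy_zero (b g L : ℕ) : hy b g L 0 = 0 := by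
  unfold hy
  simp

lemma pvG_eq {b s t g L : ℕ} (hg : g ≤ L) (m : Fin L → Fin s × Fin t) :
    pvG b s t g L m = num b (L + 1) (DD b s t g L m 0) := by
  rw [← main_eq b hg, hy_zero, add_zero]

lemma fr_even {b : ℕ} (hodd : Odd b) (L c : ℕ) : Even (fr b L c) := by
  unfold fr
  exact (hodd.pow).add_odd hodd.pow

lemma n_odd {b s t g L y : ℕ} (hodd : Odd b) (hy' : Odd (y % b)) (m : Fin L → Fin s × Fin t) :
    Odd (pvG b s t g L m + hy b g L y) := by
  have h1 : Even (pvG b s t g L m) := by
    unfold pvG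
    refine Even.add ((hodd.pow).add_odd odd_one) (Finset.even_sum _ fun c _ => ?_)
    exact (fr_even hodd L c).mul_left _
  have h2 : Odd (hy b g L y) := by
    unfold hy
    refine Odd.add_even (hy'.mul hodd.pow) (Finset.even_sum _ fun c _ => ?_)
    exact (fr_even hodd L c).mul_left _
  exact h1.add_odd h2

theorem main : StG10 := by
  intro b s t g L y hb hst hg hyb m
  have hb0 : 0 < b := by omega
  have hlt : ∀ (m' : Fin L → Fin s × Fin t) (y' j : ℕ), j ≤ L + 1 → DD b s t g L m' y' j < b :=
    fun m' y' j _ => DD_lt hb hst m' y' j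
  have he := main_eq b hg m y
  have hDpos : ∀ (m' : Fin L → Fin s × Fin t) (y' : ℕ), DD b s t g L m' y' (L + 1) ≠ 0 := by
    intro m' y'
    rw [DD_top]
    exact one_ne_zero
  refine ⟨?_, ?_, ?_, ?_, ?_, ?_, ?_⟩
  · unfold pvG
    omega
  · rw [he]
    have := num_lt (b := b) (L + 1) (DD b s t g L m y) (hlt m y)
    rwa [show 2 * (L + 1) + 1 = 2 * L + 3 by ring] at this
  · rw [he]
    exact num_sym hb (L + 1) _ (hlt m y) (hDpos m y)
  · rw [he, num_mid hb (L + 1) g (by omega) _ (hlt m y)]
    have h1 : ∑ i ∈ range (g + 1), DD b s t g L m y i * b ^ i =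
        ∑ i ∈ range (g + 1), (y / b ^ i % b) * b ^ i := by
      refine sum_congr rfl fun i hi => ?_
      rw [mem_range] at hi
      congr 1
      cases i with
      | zero => simp [DD]
      | succ c =>
        rw [DD_succ]
        rw [dif_pos (by omega), if_neg (by omega)]
    rw [h1, sum_digits_mod, Nat.mod_eq_of_lt hyb]
  · rw [he, pvG_eq hg m, show L + 2 + g = L + 1 + 1 + g by ring,
      num_top hb (L + 1) g (by omega) _ (hlt m y), num_top hb (L + 1) g (by omega) _ (hlt m 0)]
    refine sum_congr rfl fun i _ => ?_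
    congr 1
    rw [show g + 1 + i = (g + i) + 1 by ring, DD_succ, DD_succ]
    by_cases h : g + i < L
    · rw [dif_pos h, dif_pos h, if_pos (by omega), if_pos (by omega)]
    · rw [dif_neg h, dif_neg h]
  · intro hor
    have hcb : (pvG b s t g L m + hy b g L y).Coprime b := by
      rw [he, num]
      rw [show 2 * (L + 1) + 1 = (2 * (L + 1)) + 1 by ring, sum_range_succ']
      have e1 : Nat.dist 0 (L + 1) = L + 1 := by unfold Nat.dist; omega
      rw [e1, DD_top, pow_zero, one_mul]
      have h2 : ∑ k ∈ range (2 * (L + 1)), DD b s t g L m y (Nat.dist (k + 1) (L + 1)) * b ^ (k + 1) =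
          b * ∑ k ∈ range (2 * (L + 1)), DD b s t g L m y (Nat.dist (k + 1) (L + 1)) * b ^ k := by
        rw [mul_sum]
        refine sum_congr rfl fun k _ => ?_
        rw [pow_succ]
        ring
      rw [h2, add_comm]
      exact (Nat.coprime_add_mul_left_left 1 b _).mpr (Nat.coprime_one_left b)
    refine Nat.Coprime.mul_right ?_ hcb
    by_cases hev : Even b
    · exact Nat.Coprime.coprime_dvd_right hev.two_dvd hcb
    · rw [Nat.not_even_iff_odd] at hev
      have hyo : Odd (y % b) := by
        rcases hor with h | h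
        · exact absurd h (Nat.not_even_iff_odd.mpr hev)
        · exact h
      have := n_odd (s := s) (t := t) (g := g) (L := L) hev hyo m
      exact (Nat.coprime_two_right).mpr this
  · intro m' hm'
    rw [pvG_eq hg m, pvG_eq hg m'] at hm' ⊢
    rw [show L + 2 + g = L + 1 + 1 + g by ring,
      num_top hb (L + 1) g (by omega) _ (hlt m 0), num_top hb (L + 1) g (by omega) _ (hlt m' 0)] at hm'
    apply num_congr
    intro j hj
    by_cases hjg : g < j
    · have h1 := digit_sum hb (fun i => DD b s t g L m 0 (g + 1 + i)) (L + 1 - g) (j - (g + 1))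
        (by omega) fun i hi => DD_lt hb hst m 0 _
      have h2 := digit_sum hb (fun i => DD b s t g L m' 0 (g + 1 + i)) (L + 1 - g) (j - (g + 1))
        (by omega) fun i hi => DD_lt hb hst m' 0 _
      rw [hm'] at h1
      rw [h2] at h1
      rw [show g + 1 + (j - (g + 1)) = j by omega] at h1
      exact h1.symm
    · cases j with
      | zero => rfl
      | succ c =>
        rw [DD_succ, DD_succ]
        rw [dif_pos (by omega), dif_pos (by omega), if_neg (by omega), if_neg (by omega)]

end Pool.Agent.K3h87.PM
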